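import Pool.Agent.Helper42.FR.Stmts

set_option autoImplicit false

namespace Pool.Agent.Helper36.FR

open Pool.Agent.Helper42.FR

theorem num_step (r D b : ℝ) (h5 : r * r = 5) (h2 : 2 ≤ r) (h3 : r ≤ 3) (hD : 0 ≤ D)
    (y : ℕ → ℝ) (hy : ∀ n, 0 ≤ y n ∧ y n ≤ b)
    (hr : ∀ n, |y n - (4 * y (n + 1) + y (n + 2))| ≤ D * 3 ^ n) (k : ℕ) :
    ∀ n, |y (n + 1) - (r - 2) * y n| ≤ D * 3 ^ n + b * (1 / 4) ^ k := by
  induction k with
  | zero =>
    intro n
    have a0 := hy n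
    have a1 := hy (n + 1)
    have hp : 0 ≤ D * 3 ^ n := mul_nonneg hD (by positivity)
    have m1 : 0 ≤ (r - 2) * y n := mul_nonneg (by linarith) a0.1
    have m2 : (r - 2) * y n ≤ 1 * y n := mul_le_mul_of_nonneg_right (by linarith) a0.1
    rw [abs_le]
    constructor
    · rw [pow_zero]; linarith
    · rw [pow_zero]; linarith
  | succ k ih =>
    intro n
    have h1 := ih (n + 1)
    have h4 := hr n
    have e : (r + 2) * (y (n + 1) - (r - 2) * y n)
        = -(y (n + 1 + 1) - (r - 2) * y (n + 1)) - (y n - (4 * y (n + 1) + y (n + 2))) := by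
      have e1 : n + 1 + 1 = n + 2 := rfl
      rw [e1]
      linear_combination (-(y n)) * h5
    have e2 : (r + 2) * |y (n + 1) - (r - 2) * y n|
        ≤ |y (n + 1 + 1) - (r - 2) * y (n + 1)| + |y n - (4 * y (n + 1) + y (n + 2))| := by
      have e3 : (r + 2) * |y (n + 1) - (r - 2) * y n| = |(r + 2) * (y (n + 1) - (r - 2) * y n)| := by
        rw [abs_mul, abs_of_nonneg (by linarith : (0 : ℝ) ≤ r + 2)]
      rw [e3, e]
      have e4 := abs_sub (-(y (n + 1 + 1) - (r - 2) * y (n + 1))) (y n - (4 * y (n + 1) + y (n + 2)))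
      rw [abs_neg] at e4
      exact e4
    have e5 : 4 * |y (n + 1) - (r - 2) * y n| ≤ (r + 2) * |y (n + 1) - (r - 2) * y n| :=
      mul_le_mul_of_nonneg_right (by linarith) (abs_nonneg _)
    have e6 : (3 : ℝ) ^ (n + 1) = 3 * 3 ^ n := by rw [pow_succ]; ring
    have e7 : ((1 : ℝ) / 4) ^ (k + 1) = (1 / 4) * (1 / 4) ^ k := by rw [pow_succ]; ring
    rw [e6] at h1
    rw [e7]
    linarith

theorem st_NUM : ST_NUM := by
  intro y b D hD hy hr
  have h5 : Real.sqrt 5 * Real.sqrt 5 = 5 := Real.mul_self_sqrt (by norm_num)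
  have h2 : 2 ≤ Real.sqrt 5 := Real.le_sqrt_of_sq_le (by norm_num)
  have h3 : Real.sqrt 5 ≤ 3 := Real.sqrt_le_iff.mpr ⟨by norm_num, by norm_num⟩
  have key := fun k => num_step (Real.sqrt 5) D b h5 h2 h3 hD y hy hr k 0
  have t1 : Filter.Tendsto (fun k : ℕ => ((1 : ℝ) / 4) ^ k) Filter.atTop (nhds 0) :=
    tendsto_pow_atTop_nhds_zero_of_lt_one (by norm_num) (by norm_num)
  have t2 : Filter.Tendsto (fun k : ℕ => D * 3 ^ 0 + b * ((1 : ℝ) / 4) ^ k) Filter.atTop
      (nhds (D * 3 ^ 0 + b * 0)) := Filter.Tendsto.const_add _ (Filter.Tendsto.const_mul _ t1)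
  have t3 := ge_of_tendsto' t2 key
  have t4 : D * 3 ^ 0 + b * 0 = D := by ring
  rw [t4] at t3
  exact t3

end Pool.Agent.Helper36.FR
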